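import Pool.Agent.P8H12.JN.Stm

set_option autoImplicit false

/-!
# Project JN, package EUL: the Euler product
-/

namespace Pool.Agent.P8H87.JN

open Finset Pool.Agent.P8H12.JN Filter Topology

/-- the density of the order `e` of the repeated part at `p` -/
noncomputable def DD (n p e : ℕ) : ℝ := ∑ f ∈ range n, dl n p (e, f)

lemma sum_E1 (n w p : ℕ) : ∑ x ∈ E1 n w p, dl n p x = DD n p (w.factorization p) := by
  unfold E1 DD
  rw [sum_image]
  intro a _ b _ h
  exact (Prod.ext_iff.1 h).2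

lemma E1_ev (n w : ℕ) (hn : 3 ≤ n) : ∃ N : ℕ, ∀ p : ℕ, N ≤ p → (0, 0) ∈ E1 n w p := by
  refine ⟨w + 1, fun p hp => ?_⟩
  unfold E1
  rw [mem_image]
  refine ⟨0, mem_range.2 (by omega), ?_⟩
  rw [Nat.factorization_eq_zero_of_lt (by omega)]

/-- the partial products -/
noncomputable def pp (n w N : ℕ) : ℝ := ∏ p ∈ N.primesBelow, DD n p (w.factorization p)

lemma pp_tend (hprd : S_PRD) {n : ℕ} (hn : 3 ≤ n) {w : ℕ} (hw : w ≠ 0) :
    Tendsto (fun N => pp n w N) atTop (𝓝 (rho1 n w)) := by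
  have h := (hprd n hn (E1 n w) (E1_ev n w hn)).2.2.1
  unfold rho1
  rw [if_neg hw]
  refine h.congr fun N => ?_
  unfold pp
  exact prod_congr rfl fun p _ => sum_E1 n w p

lemma rho1_mul (hprd : S_PRD) {n : ℕ} (hn : 3 ≤ n) {a b : ℕ} (ha : a ≠ 0) (hb : b ≠ 0)
    (hab : a.Coprime b) : rho1 n (a * b) * rho1 n 1 = rho1 n a * rho1 n b := by
  have h1 := (pp_tend hprd hn (mul_ne_zero ha hb)).mul (pp_tend hprd hn one_ne_zero)
  have h2 := (pp_tend hprd hn ha).mul (pp_tend hprd hn hb)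
  refine tendsto_nhds_unique h1 (h2.congr fun N => ?_)
  unfold pp
  rw [← prod_mul_distrib, ← prod_mul_distrib]
  refine prod_congr rfl fun p hp => ?_
  have hpp := Nat.prime_of_mem_primesBelow hp
  rw [Nat.factorization_mul ha hb, Nat.factorization_one, Finsupp.add_apply, Finsupp.zero_apply]
  by_cases h3 : p ∣ a
  · have h4 : ¬ p ∣ b := fun h4 => hpp.one_lt.ne' (Nat.eq_one_of_dvd_coprimes hab h3 h4)
    rw [Nat.factorization_eq_zero_of_not_dvd h4, add_zero]
  · rw [Nat.factorization_eq_zero_of_not_dvd h3, zero_add, mul_comm]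

lemma rho1_pow (hprd : S_PRD) {n : ℕ} (hn : 3 ≤ n) {p : ℕ} (hp : p.Prime) (e : ℕ) :
    rho1 n (p ^ e) * DD n p 0 = rho1 n 1 * DD n p e := by
  have h1 := (pp_tend hprd hn (pow_ne_zero e hp.ne_zero)).mul_const (DD n p 0)
  have h2 := (pp_tend hprd hn one_ne_zero).mul_const (DD n p e)
  refine tendsto_nhds_unique h1 (h2.congr' ?_)
  filter_upwards [eventually_gt_atTop p] with N hN
  have hm : p ∈ N.primesBelow := Nat.mem_primesBelow.2 ⟨hN, hp⟩
  unfold pp
  rw [← mul_prod_erase _ _ hm, ← mul_prod_erase _ _ hm, Nat.factorization_one, Finsupp.zero_apply,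
    hp.factorization_pow, Finsupp.single_eq_same]
  have h3 : ∏ q ∈ N.primesBelow.erase p, DD n q ((Finsupp.single p e : ℕ →₀ ℕ) q) =
      ∏ q ∈ N.primesBelow.erase p, DD n q ((0 : ℕ →₀ ℕ) q) := by
    refine prod_congr rfl fun q hq => ?_
    rw [Finsupp.single_eq_of_ne (ne_of_mem_erase hq), Finsupp.zero_apply]
  rw [h3]
  ring

/-- the package EUL -/
theorem eul (hdlp : S_DLP) (hprd : S_PRD) (hepf : S_EPF) : S_EUL := by
  intro n hn hs
  obtain ⟨hdl, -⟩ := hdlp n hn
  have hD0 : ∀ p : ℕ, p.Prime → 0 < DD n p 0 := by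
    intro p hp
    obtain ⟨h1, -, h3⟩ := hdl p hp
    unfold DD
    exact lt_of_lt_of_le h3
      (single_le_sum (f := fun f => dl n p (0, f)) (fun f _ => h1 _) (mem_range.2 (by omega)))
  have hpos1 : 0 < rho1 n 1 := by
    unfold rho1
    rw [if_neg one_ne_zero]
    refine (hprd n hn (E1 n 1) (E1_ev n 1 hn)).2.2.2 fun p hp => ?_
    rw [sum_E1, Nat.factorization_one, Finsupp.zero_apply]
    exact hD0 p hp
  have hpos2 : 0 < rho2 n (1, 1) := by
    unfold rho2
    rw [if_neg (by simp)]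
    refine (hprd n hn (E2 1 1) ⟨0, fun p _ => ?_⟩).2.2.2 fun p hp => ?_
    · unfold E2
      simp
    · unfold E2
      rw [sum_singleton, Nat.factorization_one, Finsupp.zero_apply]
      exact (hdl p hp).2.2
  refine ⟨hpos1, hpos2, ?_⟩
  set g : ℕ → ℝ := fun w => (w : ℝ) ^ gam n * rho1 n w / rho1 n 1 with hg
  have g1 : g 1 = 1 := by
    simp only [hg]
    rw [Nat.cast_one, Real.one_rpow, one_mul, div_self hpos1.ne']
  have r0 : rho1 n 0 = 0 := by
    unfold rho1
    rw [if_pos rfl]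
  have g0 : g 0 = 0 := by
    simp only [hg]
    rw [r0, mul_zero, zero_div]
  have gmul : ∀ {a b : ℕ}, a.Coprime b → g (a * b) = g a * g b := by
    intro a b hab
    rcases eq_or_ne a 0 with rfl | ha
    · rw [zero_mul, g0, zero_mul]
    rcases eq_or_ne b 0 with rfl | hb
    · rw [mul_zero, g0, mul_zero]
    have h1 := rho1_mul hprd hn ha hb hab
    simp only [hg]
    rw [Nat.cast_mul, Real.mul_rpow (Nat.cast_nonneg a) (Nat.cast_nonneg b)]
    rw [div_mul_div_comm, div_eq_div_iff hpos1.ne' (mul_ne_zero hpos1.ne' hpos1.ne')]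
    linear_combination ((a : ℝ) ^ gam n * (b : ℝ) ^ gam n * rho1 n 1) * h1
  have rnn : ∀ w, 0 ≤ rho1 n w := by
    intro w
    unfold rho1
    split_ifs with h
    · exact le_rfl
    · exact (hprd n hn (E1 n w) (E1_ev n w hn)).2.1
  have gnn : ∀ w, 0 ≤ g w := fun w => div_nonneg (mul_nonneg (by positivity) (rnn w)) hpos1.le
  have gs : Summable (fun w => ‖g w‖) := by
    have h1 : (fun w => ‖g w‖) = fun w : ℕ => (w : ℝ) ^ gam n * rho1 n w / rho1 n 1 := by
      funext w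
      rw [Real.norm_eq_abs, abs_of_nonneg (gnn w)]
    rw [h1]
    exact hs.div_const _
  have h1 := EulerProduct.eulerProduct g1 gmul gs g0
  have h2 : ∀ p : ℕ, p.Prime → ∑' e, g (p ^ e) = EP n p / DD n p 0 := by
    intro p hp
    have h3 := (hepf n hn p hp).div_const (DD n p 0)
    rw [← h3.tsum_eq]
    refine tsum_congr fun e => ?_
    have h4 := rho1_pow hprd hn hp e
    have h5 := hD0 p hp
    change ((p ^ e : ℕ) : ℝ) ^ gam n * rho1 n (p ^ e) / rho1 n 1 =
      (p : ℝ) ^ (gam n * e) * DD n p e / DD n p 0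
    have h6 : ((p ^ e : ℕ) : ℝ) ^ gam n = (p : ℝ) ^ (gam n * e) := by
      rw [Nat.cast_pow, ← Real.rpow_natCast, ← Real.rpow_mul (Nat.cast_nonneg p), mul_comm]
    rw [h6, div_eq_div_iff hpos1.ne' h5.ne']
    linear_combination ((p : ℝ) ^ (gam n * e)) * h4
  have h3 := h1.mul (pp_tend hprd hn one_ne_zero)
  have h4 : (∑' w, g w) * rho1 n 1 = ∑' w : ℕ, (w : ℝ) ^ gam n * rho1 n w := by
    rw [← tsum_mul_right]
    refine tsum_congr fun w => ?_
    simp only [hg]
    rw [div_mul_cancel₀ _ hpos1.ne']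
  rw [h4] at h3
  refine h3.congr fun N => ?_
  unfold pp
  rw [← prod_mul_distrib]
  refine prod_congr rfl fun p hp => ?_
  have hpp := Nat.prime_of_mem_primesBelow hp
  rw [h2 p hpp, Nat.factorization_one, Finsupp.zero_apply, div_mul_cancel₀ _ (hD0 p hpp).ne']

end Pool.Agent.P8H87.JN
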