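import Pool.Agent.P8H87.JN.MOne
import Pool.Agent.R320.PR.Pol

set_option autoImplicit false

/-!
# Project JN, package LVL: the level cones of the height
-/

namespace Pool.Agent.P8H87.JN

open Finset Pool.Agent.P8H12.JN MeasureTheory Filter Topology

variable {d : ℕ}

/-- the coordinates as polynomials -/
noncomputable def LL (d : ℕ) : Fin (d + 1) → MvPolynomial (Fin d) ℝ :=
  co fun i => MvPolynomial.X i

lemma eval_LL (u : Fin d → ℝ) (i : Fin (d + 1)) : MvPolynomial.eval u (LL d i) = co u i := by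
  unfold LL
  refine Fin.lastCases ?_ (fun i => ?_) i
  · rw [co_last, co_last, map_neg, map_sum]
    congr 1
    exact sum_congr rfl fun i _ => MvPolynomial.eval_X i
  · rw [co_cast, co_cast, MvPolynomial.eval_X]

lemma co_init {v : Fin (d + 1) → ℝ} (h : ∑ i, v i = 0) :
    co (fun i : Fin d => v i.castSucc) = v := by
  funext i
  refine Fin.lastCases ?_ (fun i => ?_) i
  · rw [co_last]
    rw [Fin.sum_univ_castSucc] at h
    linarith
  · rw [co_cast]

lemma exists_pt (hd : 2 ≤ d) (i : Fin (d + 1)) :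
    ∃ u : Fin d → ℝ, co u i = 1 ∧ ∃ j, co u j = 0 := by
  classical
  obtain ⟨k, hk⟩ : ∃ k : Fin (d + 1), k ≠ i := by
    refine Fintype.exists_ne_of_one_lt_card ?_ i
    rw [Fintype.card_fin]
    omega
  obtain ⟨j, hj⟩ : ∃ j : Fin (d + 1), j ∉ ({i, k} : Finset (Fin (d + 1))) := by
    by_contra hcon
    push Not at hcon
    have h1 : (univ : Finset (Fin (d + 1))) ⊆ {i, k} := fun j _ => hcon j
    have h2 := (card_le_card h1).trans card_le_two
    rw [card_univ, Fintype.card_fin] at h2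
    omega
  rw [mem_insert, mem_singleton, not_or] at hj
  set v : Fin (d + 1) → ℝ := Pi.single i 1 - Pi.single k 1 with hv
  have h0 : ∑ l, v l = 0 := by
    simp [hv, sum_sub_distrib]
  refine ⟨fun l => v l.castSucc, ?_, j, ?_⟩
  · rw [co_init h0]
    simp [hv, hk.symm]
  · rw [co_init h0]
    simp [hv, hj.1, hj.2]

lemma co_cont : Continuous (co : (Fin d → ℝ) → Fin (d + 1) → ℝ) := by
  refine continuous_pi fun i => ?_
  have h : (fun u : Fin d → ℝ => co u i) = fun u => MvPolynomial.eval u (LL d i) := by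
    funext u
    rw [eval_LL]
  rw [h]
  exact MvPolynomial.continuous_eval _

lemma Phi_cont : Continuous (Phi : (Fin d → ℝ) → ℝ) := by
  unfold Phi
  exact continuous_finsetProd _ fun i _ => ((continuous_apply i).comp co_cont).abs

lemma Phi_nonneg (u : Fin d → ℝ) : 0 ≤ Phi u := prod_nonneg fun i _ => abs_nonneg _

lemma Phi_eq_zero (u : Fin d → ℝ) : Phi u = 0 ↔ ∃ i, co u i = 0 := by
  unfold Phi
  rw [prod_eq_zero_iff]
  simp

lemma hc_cont (c : ℝ) : Continuous fun u : Fin d → ℝ => c * ‖co u‖ ^ (d + 1) :=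
  continuous_const.mul (co_cont.norm.pow _)

lemma hc_closed (c : ℝ) : IsClosed (HC d c) := isClosed_le (hc_cont c) Phi_cont

lemma LL_ne (hd : 2 ≤ d) (i : Fin (d + 1)) : LL d i ≠ 0 := by
  intro h
  obtain ⟨u, h1, -⟩ := exists_pt hd i
  rw [← eval_LL, h, map_zero] at h1
  exact zero_ne_one h1

lemma phi_null (hd : 2 ≤ d) : volume {u : Fin d → ℝ | Phi u = 0} = 0 := by
  have h1 := Pool.Agent.R320.PR.zero_null d (∏ i, LL d i)
    (prod_ne_zero_iff.2 fun i _ => LL_ne hd i)
  refine measure_mono_null ?_ h1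
  intro u hu
  obtain ⟨i, hi⟩ := (Phi_eq_zero u).1 hu
  change MvPolynomial.eval u (∏ i, LL d i) = 0
  rw [map_prod]
  exact prod_eq_zero (mem_univ i) (by rw [eval_LL, hi])

lemma norm_eq (v : Fin (d + 1) → ℝ) : ∃ i, ‖v‖ = |v i| := by
  obtain ⟨i, hi⟩ := Finite.exists_max fun i => |v i|
  refine ⟨i, le_antisymm ?_ ?_⟩
  · rw [pi_norm_le_iff_of_nonneg (abs_nonneg _)]
    exact hi
  · exact norm_le_pi_norm v i

lemma co_smul (t : ℝ) (u : Fin d → ℝ) : co (t • u) = t • co u := by
  funext i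
  rw [Pi.smul_apply]
  refine Fin.lastCases ?_ (fun i => ?_) i
  · rw [co_last, co_last, smul_neg, smul_sum]
    rfl
  · rw [co_cast, co_cast]
    rfl

lemma Phi_smul (t : ℝ) (u : Fin d → ℝ) : Phi (t • u) = |t| ^ (d + 1) * Phi u := by
  unfold Phi
  rw [co_smul]
  simp only [Pi.smul_apply, smul_eq_mul, abs_mul]
  rw [prod_mul_distrib, prod_const, card_univ, Fintype.card_fin]

lemma hc_frontier (hd : 2 ≤ d) {c : ℝ} (hc : 0 < c) : volume (frontier (HC d c)) = 0 := by
  have h0 : frontier (HC d c) ⊆ ⋃ i : Fin (d + 1), {u | MvPolynomial.eval u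
      (MvPolynomial.C (c ^ 2) * LL d i ^ (2 * (d + 1)) - (∏ j, LL d j) ^ 2) = 0} := by
    intro u hu
    have h1 : c * ‖co u‖ ^ (d + 1) = Phi u := frontier_le_subset_eq (hc_cont c) Phi_cont hu
    obtain ⟨i, hi⟩ := norm_eq (co u)
    rw [hi] at h1
    refine Set.mem_iUnion.2 ⟨i, ?_⟩
    change MvPolynomial.eval u _ = 0
    rw [map_sub, map_mul, MvPolynomial.eval_C, map_pow, map_pow, map_prod, eval_LL,
      prod_congr rfl fun j _ => eval_LL u j]
    have h2 : (c * |co u i| ^ (d + 1)) ^ 2 = Phi u ^ 2 := by rw [h1]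
    have h3 : Phi u ^ 2 = (∏ j, co u j) ^ 2 := by
      unfold Phi
      rw [← abs_prod, sq_abs]
    rw [h3, mul_pow, ← pow_mul, mul_comm (d + 1) 2, pow_mul |co u i|, sq_abs, ← pow_mul] at h2
    rw [h2, sub_self]
  refine measure_mono_null h0 (measure_iUnion_null fun i => ?_)
  refine Pool.Agent.R320.PR.zero_null d _ fun h => ?_
  obtain ⟨u, h1, j, h2⟩ := exists_pt hd i
  have h3 := congrArg (MvPolynomial.eval u) h
  rw [map_sub, map_mul, MvPolynomial.eval_C, map_pow, map_pow, map_prod, eval_LL, h1,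
    prod_eq_zero (mem_univ j) (by rw [eval_LL, h2]), map_zero] at h3
  have h4 : c ^ 2 = 0 := by simpa using h3
  exact hc.ne' (pow_eq_zero_iff two_ne_zero |>.1 h4)

/-- the package LVL -/
theorem lvl : S_LVL := by
  intro d hd
  refine ⟨fun c hc => ⟨⟨(hc_closed c).measurableSet, hc_frontier hd hc, ?_⟩, ?_⟩, ?_⟩
  · intro t ht u hu
    change c * ‖co (t • u)‖ ^ (d + 1) ≤ Phi (t • u)
    rw [co_smul, Phi_smul, norm_smul, Real.norm_eq_abs, mul_pow, mul_left_comm]
    exact mul_le_mul_of_nonneg_left hu (by positivity)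
  · have hopen : IsOpen ({u : Fin d → ℝ | Phi u < c * ‖co u‖ ^ (d + 1)} ∩ {u | Phi u < 1}) :=
      (isOpen_lt Phi_cont (hc_cont c)).inter (isOpen_lt Phi_cont continuous_const)
    have hne : ({u : Fin d → ℝ | Phi u < c * ‖co u‖ ^ (d + 1)} ∩ {u | Phi u < 1}).Nonempty := by
      obtain ⟨u, h1, h2⟩ := exists_pt hd 0
      have h3 := (Phi_eq_zero u).2 h2
      refine ⟨u, ?_, ?_⟩
      · change Phi u < c * ‖co u‖ ^ (d + 1)
        rw [h3]
        have h4 : 0 < ‖co u‖ := by
          rw [norm_pos_iff]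
          intro h5
          rw [h5] at h1
          exact zero_ne_one h1
        positivity
      · change Phi u < 1
        rw [h3]
        exact one_pos
    refine lt_of_lt_of_le (hopen.measure_pos volume hne) (measure_mono ?_)
    rintro u ⟨h1, h2⟩
    exact ⟨fun h3 => absurd (show c * ‖co u‖ ^ (d + 1) ≤ Phi u from h3) (not_le.2 h1),
      le_of_lt (show Phi u < 1 from h2)⟩
  · set s : ℕ → Set (Fin d → ℝ) := fun k => HC d (1 / ((k : ℝ) + 1)) ∩ Un d with hs
    have hmono : Monotone s := by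
      intro a b hab u hu
      refine ⟨?_, hu.2⟩
      have h1 : 1 / ((a : ℝ) + 1) * ‖co u‖ ^ (d + 1) ≤ Phi u := hu.1
      refine le_trans (mul_le_mul_of_nonneg_right ?_ (by positivity)) h1
      exact one_div_le_one_div_of_le (by positivity) (by exact_mod_cast Nat.succ_le_succ hab)
    have h1 := tendsto_measure_iUnion_atTop (μ := volume) hmono
    have h2 : volume (⋃ k, s k) = volume (Un d) := by
      refine le_antisymm (measure_mono (Set.iUnion_subset fun k => Set.inter_subset_right)) ?_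
      have h3 : Un d ⊆ (⋃ k, s k) ∪ {u | Phi u = 0} := by
        intro u hu
        by_cases h4 : Phi u = 0
        · exact Or.inr h4
        · left
          have h5 : 0 < Phi u := lt_of_le_of_ne (Phi_nonneg u) (Ne.symm h4)
          obtain ⟨k, hk⟩ := exists_nat_gt (‖co u‖ ^ (d + 1) / Phi u)
          refine Set.mem_iUnion.2 ⟨k, ?_, hu⟩
          change 1 / ((k : ℝ) + 1) * ‖co u‖ ^ (d + 1) ≤ Phi u
          rw [div_lt_iff₀ h5] at hk
          rw [one_div, inv_mul_le_iff₀ (by positivity)]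
          nlinarith
      calc volume (Un d) ≤ volume ((⋃ k, s k) ∪ {u | Phi u = 0}) := measure_mono h3
        _ ≤ volume (⋃ k, s k) + volume {u : Fin d → ℝ | Phi u = 0} := measure_union_le _ _
        _ = volume (⋃ k, s k) := by rw [phi_null hd, add_zero]
    rw [h2] at h1
    exact h1

end Pool.Agent.P8H87.JN
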