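import Pool.Agent.P8H87.JN.Rep

set_option autoImplicit false

/-!
# Project JN, package M1: the truncated count
-/

namespace Pool.Agent.P8H87.JN

open Finset Pool.Agent.P8H12.JN MeasureTheory Filter Topology

lemma co_cast {R : Type} [AddCommGroup R] {d : ℕ} (y : Fin d → R) (i : Fin d) :
    co y i.castSucc = y i := by
  unfold co
  rw [Fin.snoc_castSucc]

lemma co_last {R : Type} [AddCommGroup R] {d : ℕ} (y : Fin d → R) :
    co y (Fin.last d) = -∑ i, y i := by
  unfold co
  rw [Fin.snoc_last]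

lemma co_sc {d : ℕ} (l : ℝ) (y : Fin d → ℤ) (i : Fin (d + 1)) :
    co (sc l y) i = ((co y i : ℤ) : ℝ) / l := by
  refine Fin.lastCases ?_ (fun i => ?_) i
  · rw [co_last, co_last]
    unfold sc
    push_cast
    rw [neg_div, Finset.sum_div]
  · rw [co_cast, co_cast]
    rfl

lemma Phi_sc {d : ℕ} {l : ℝ} (hl : 0 < l) (y : Fin d → ℤ) :
    Phi (sc l y) = (PP (co y) : ℝ) / l ^ (d + 1) := by
  unfold Phi PP
  have h : ∀ i, |co (sc l y) i| = (((co y i).natAbs : ℕ) : ℝ) / l := by
    intro i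
    rw [co_sc, abs_div, abs_of_pos hl, Nat.cast_natAbs, Int.cast_abs]
  rw [prod_congr rfl fun i _ => h i, prod_div_distrib, prod_const, card_univ, Fintype.card_fin]
  push_cast
  rfl

lemma box_finite {d : ℕ} (M : ℝ) : {y : Fin d → ℤ | ∀ i, |((y i : ℤ) : ℝ)| ≤ M}.Finite := by
  refine (Set.finite_Icc (fun _ : Fin d => -⌈M⌉) (fun _ => ⌈M⌉)).subset ?_
  intro y hy
  have h1 : ∀ i, -⌈M⌉ ≤ y i ∧ y i ≤ ⌈M⌉ := by
    intro i
    have h2 := abs_le.1 (hy i)
    have h3 := Int.le_ceil M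
    constructor
    · have : ((-⌈M⌉ : ℤ) : ℝ) ≤ y i := by
        push_cast
        linarith
      exact_mod_cast this
    · have : ((y i : ℤ) : ℝ) ≤ ((⌈M⌉ : ℤ) : ℝ) := by linarith
      exact_mod_cast this
  exact ⟨fun i => (h1 i).1, fun i => (h1 i).2⟩

lemma co_le {d : ℕ} (hd : 1 ≤ d) {y : Fin d → ℤ} {M : ℝ} (hM : 0 ≤ M)
    (hy : ∀ i, |((y i : ℤ) : ℝ)| ≤ M) (i : Fin (d + 1)) : |((co y i : ℤ) : ℝ)| ≤ d * M := by
  have hd' : (1 : ℝ) ≤ d := by exact_mod_cast hd
  refine Fin.lastCases ?_ (fun i => ?_) i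
  · rw [co_last]
    push_cast
    rw [abs_neg]
    calc |∑ i, ((y i : ℤ) : ℝ)| ≤ ∑ i, |((y i : ℤ) : ℝ)| := abs_sum_le_sum_abs _ _
      _ ≤ ∑ _i : Fin d, M := sum_le_sum fun i _ => hy i
      _ = d * M := by rw [sum_const, card_univ, Fintype.card_fin, nsmul_eq_mul]
  · rw [co_cast]
    calc |((y i : ℤ) : ℝ)| ≤ 1 * M := by
          rw [one_mul]
          exact hy i
      _ ≤ d * M := mul_le_mul_of_nonneg_right hd' hM

lemma sc_smul {d : ℕ} (a b : ℝ) (hb : b ≠ 0) (y : Fin d → ℤ) :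
    (b / a) • sc b y = sc a y := by
  funext i
  unfold sc
  rw [Pi.smul_apply, smul_eq_mul]
  rcases eq_or_ne a 0 with rfl | ha
  · simp
  · field_simp

/-- the package M1 -/
theorem m1 (hreg : S_REG) : S_M1 := by
  intro d hd J t w ρ hD A hA Q hQ T hT F
  classical
  set D : J → Set (Fin d → ℝ) := fun j => {u | u ∈ Q j ∧ (∀ i, |u i| ≤ T) ∧
    (w j : ℝ) / T ≤ Phi u ∧ Phi u ≤ w j} with hDdef
  have hw : ∀ j, (1 : ℝ) ≤ w j := fun j => by exact_mod_cast hD.w1 j
  have hT0 : 0 < T := by linarith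
  have hJ : ∀ j, Jor (D j) := fun j => hreg d hd (Q j) (hQ j).1 (hQ j).2.1 T _ _
    (div_pos (lt_of_lt_of_le one_pos (hw j)) hT0)
  set B : J → ℝ → Set (Fin d → ℤ) := fun j l => {y | Pt (co y) ∧ t y = j ∧ sc l y ∈ D j} with hB
  set α : ℝ := 1 / ((d : ℝ) + 1) with hα
  have hα0 : 0 < α := by positivity
  have hl : Tendsto (fun X : ℝ => X ^ α) atTop atTop := tendsto_rpow_atTop hα0
  have h1 : ∀ j, Tendsto (fun X : ℝ => ((B j (X ^ α)).ncard : ℝ) / (X ^ α) ^ d) atTop
      (𝓝 ((volume (D j)).toReal * ρ j)) := fun j => (hD.dens j (D j) (hJ j)).comp hl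
  have h2 := tendsto_finsetSum F (fun j _ => h1 j)
  have h3 : ∑ j ∈ F, (volume (D j)).toReal * ρ j = ∑ j ∈ F, ρ j * (volume (D j)).toReal :=
    sum_congr rfl fun j _ => mul_comm _ _
  rw [h3] at h2
  refine h2.congr' ?_
  have h4 : ∀ᶠ X : ℝ in atTop, d * (T * X ^ α) ≤ X ^ A := by
    have h5 : Tendsto (fun X : ℝ => X ^ (A - α)) atTop atTop := tendsto_rpow_atTop (by linarith)
    filter_upwards [h5.eventually_ge_atTop (d * T), eventually_gt_atTop 0] with X h6 hX
    calc d * (T * X ^ α) = d * T * X ^ α := by ring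
      _ ≤ X ^ (A - α) * X ^ α := mul_le_mul_of_nonneg_right h6 (Real.rpow_nonneg hX.le _)
      _ = X ^ A := by rw [← Real.rpow_add hX, sub_add_cancel]
  filter_upwards [h4, eventually_ge_atTop 1] with X h5 hX1
  have hX0 : 0 < X := by linarith
  set l := X ^ α with hldef
  have hl0 : 0 < l := Real.rpow_pos_of_pos hX0 _
  have hld : l ^ (d + 1) = X := by
    rw [hldef, ← Real.rpow_natCast, ← Real.rpow_mul hX0.le, hα]
    push_cast
    rw [one_div, inv_mul_cancel₀ (by positivity), Real.rpow_one]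
  have hgam : X ^ gam (d + 1) = l ^ d := by
    rw [hldef, ← Real.rpow_natCast, ← Real.rpow_mul hX0.le, hα]
    congr 1
    unfold gam
    push_cast
    field_simp
    ring
  set S : Set (Fin d → ℤ) := {y ∈ PY d A X | t y ∈ F ∧ sc 1 y ∈ Q (t y) ∧
    (∀ i, |((y i : ℤ) : ℝ)| ≤ T * l) ∧ X / T ≤ (RR (co y) : ℝ)} with hS
  have hSfin : S.Finite := (box_finite (T * l)).subset fun y hy => hy.2.2.2.1
  have hBS : ∀ j ∈ F, B j l = {y ∈ S | t y = j} := by
    intro j hj
    ext y
    have hRR : Pt (co y) → t y = j → (RR (co y) : ℝ) * w j = X * Phi (sc l y) := by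
      intro hp hty
      have e1 := hD.rep y hp
      rw [hty] at e1
      have e2 := RR_mul (z := co y)
      rw [← e1] at e2
      rw [Phi_sc hl0, hld, mul_div_cancel₀ _ hX0.ne']
      exact_mod_cast e2
    have hwj := hw j
    have hwj0 : (0 : ℝ) < w j := by linarith
    constructor
    · rintro ⟨hp, hty, hq, hb, hlo, hup⟩
      have e := hRR hp hty
      have hb' : ∀ i, |((y i : ℤ) : ℝ)| ≤ T * l := by
        intro i
        have h6 := hb i
        unfold sc at h6
        rwa [abs_div, abs_of_pos hl0, div_le_iff₀ hl0] at h6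
      refine ⟨⟨⟨hp, fun i => ?_, ?_⟩, ?_, ?_, hb', ?_⟩, hty⟩
      · exact (co_le (by omega) (by positivity) hb' i).trans h5
      · have : (RR (co y) : ℝ) * w j ≤ X * w j := by
          rw [e]
          exact mul_le_mul_of_nonneg_left hup hX0.le
        exact le_of_mul_le_mul_right this hwj0
      · rwa [hty]
      · rw [hty]
        have h6 := (hQ j).2.2 (l / 1) (by positivity) _ hq
        rwa [sc_smul 1 l hl0.ne'] at h6
      · have : X / T * w j ≤ RR (co y) * w j := by
          rw [e, div_mul_eq_mul_div, mul_div_assoc]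
          exact mul_le_mul_of_nonneg_left hlo hX0.le
        exact le_of_mul_le_mul_right this hwj0
    · rintro ⟨⟨⟨hp, -, hup⟩, -, hq, hb, hlo⟩, hty⟩
      have e := hRR hp hty
      rw [hty] at hq
      refine ⟨hp, hty, ?_, fun i => ?_, ?_, ?_⟩
      · have h6 := (hQ j).2.2 (1 / l) (by positivity) _ hq
        rwa [sc_smul l 1 one_ne_zero] at h6
      · unfold sc
        rw [abs_div, abs_of_pos hl0, div_le_iff₀ hl0]
        exact hb i
      · have : X * ((w j : ℝ) / T) ≤ X * Phi (sc l y) := by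
          rw [← e, ← mul_div_assoc, mul_div_right_comm]
          exact mul_le_mul_of_nonneg_right hlo hwj0.le
        exact le_of_mul_le_mul_left this hX0
      · have : X * Phi (sc l y) ≤ X * w j := by
          rw [← e]
          exact mul_le_mul_of_nonneg_right hup hwj0.le
        exact le_of_mul_le_mul_left this hX0
  have hcard : S.ncard = ∑ j ∈ F, (B j l).ncard := by
    rw [Set.ncard_eq_toFinset_card S hSfin,
      Finset.card_eq_sum_card_fiberwise (f := t) (t := F) (s := hSfin.toFinset)]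
    · refine sum_congr rfl fun j hj => ?_
      rw [hBS j hj, ← Set.ncard_coe_finset]
      congr 1
      ext y
      simp
    · intro y hy
      have h6 : y ∈ S := by simpa using hy
      exact h6.2.1
  change ∑ j ∈ F, ((B j l).ncard : ℝ) / l ^ d = (S.ncard : ℝ) / X ^ gam (d + 1)
  rw [hgam, hcard, ← sum_div]
  push_cast
  rfl

end Pool.Agent.P8H87.JN
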