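import Pool.Agent.P8H12.JN.Stm

set_option autoImplicit false

/-!
# Project JN, package REP: the local conditions, the repeated part and the shared part
-/

namespace Pool.Agent.P8H87.JN

open Finset Pool.Agent.P8H12.JN

lemma rad_ne (m : ℕ) : rad m ≠ 0 := by
  unfold rad
  exact prod_ne_zero_iff.2 fun q hq => (Nat.prime_of_mem_primeFactors hq).ne_zero

lemma rad_fact {m p : ℕ} (hm : m ≠ 0) (hp : p.Prime) :
    (rad m).factorization p = if p ∣ m then 1 else 0 := by
  unfold rad
  rw [Nat.factorization_prod (fun q hq => (Nat.prime_of_mem_primeFactors hq).ne_zero),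
    Finsupp.finsetSum_apply]
  have h : ∀ q ∈ m.primeFactors, q.factorization p = if q = p then 1 else 0 := by
    intro q hq
    rw [(Nat.prime_of_mem_primeFactors hq).factorization, Finsupp.single_apply]
  rw [sum_congr rfl h, sum_ite_eq']
  by_cases h1 : p ∣ m
  · rw [if_pos h1, if_pos (Nat.mem_primeFactors.2 ⟨hp, h1, hm⟩)]
  · rw [if_neg h1, if_neg fun h2 => h1 (Nat.dvd_of_mem_primeFactors h2)]

variable {n : ℕ} {z : Fin n → ℤ}

lemma PP_ne (hz : ∀ i, z i ≠ 0) : PP z ≠ 0 :=
  prod_ne_zero_iff.2 fun i _ => Int.natAbs_ne_zero.2 (hz i)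

lemma RR_ne : RR z ≠ 0 :=
  prod_ne_zero_iff.2 fun i _ => rad_ne _

lemma fact_PP (hz : ∀ i, z i ≠ 0) (p : ℕ) :
    (PP z).factorization p = ∑ i, (z i).natAbs.factorization p := by
  unfold PP
  rw [Nat.factorization_prod (fun i _ => Int.natAbs_ne_zero.2 (hz i)), Finsupp.finsetSum_apply]

lemma fact_ne_zero (hz : ∀ i, z i ≠ 0) {p : ℕ} (hp : p.Prime) (i : Fin n) :
    (z i).natAbs.factorization p ≠ 0 ↔ p ∣ (z i).natAbs := by
  have h0 : (z i).natAbs ≠ 0 := Int.natAbs_ne_zero.2 (hz i)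
  rw [Ne, Nat.factorization_eq_zero_iff]
  tauto

lemma fact_RR (hz : ∀ i, z i ≠ 0) {p : ℕ} (hp : p.Prime) :
    (RR z).factorization p = (univ.filter fun i => (z i).natAbs.factorization p ≠ 0).card := by
  unfold RR
  rw [Nat.factorization_prod (fun i _ => rad_ne _), Finsupp.finsetSum_apply, card_filter]
  refine sum_congr rfl fun i _ => ?_
  rw [rad_fact (Int.natAbs_ne_zero.2 (hz i)) hp]
  exact if_congr (fact_ne_zero hz hp i).symm rfl rfl

lemma RR_dvd : RR z ∣ PP z := by
  unfold RR PP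
  exact prod_dvd_prod_of_dvd _ _ fun i _ => Nat.prod_primeFactors_dvd _

lemma rad_dvd (hz : ∀ i, z i ≠ 0) : rad (PP z) ∣ RR z := by
  unfold rad
  refine Finset.prod_primes_dvd _ (fun q hq => (Nat.prime_of_mem_primeFactors hq).prime) ?_
  intro q hq
  have hp := Nat.prime_of_mem_primeFactors hq
  have h1 := Nat.dvd_of_mem_primeFactors hq
  unfold PP at h1
  rw [hp.prime.dvd_finsetProd_iff] at h1
  obtain ⟨i, hi, h2⟩ := h1
  refine dvd_trans ?_ (dvd_prod_of_mem _ hi)
  exact dvd_prod_of_mem _ (Nat.mem_primeFactors.2 ⟨hp, h2, Int.natAbs_ne_zero.2 (hz i)⟩)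

lemma RR_mul : RR z * rep z = PP z := Nat.mul_div_cancel' RR_dvd

lemma rad_mul (hz : ∀ i, z i ≠ 0) : rad (PP z) * sh z = RR z := Nat.mul_div_cancel' (rad_dvd hz)

lemma rep_ne (hz : ∀ i, z i ≠ 0) : rep z ≠ 0 := by
  intro h
  have h1 := RR_mul (z := z)
  rw [h, mul_zero] at h1
  exact PP_ne hz h1.symm

lemma sh_ne (hz : ∀ i, z i ≠ 0) : sh z ≠ 0 := by
  intro h
  have h1 := rad_mul hz
  rw [h, mul_zero] at h1
  exact RR_ne h1.symm

lemma fact_rep (hz : ∀ i, z i ≠ 0) {p : ℕ} (hp : p.Prime) :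
    (rep z).factorization p = ∑ i, ((z i).natAbs.factorization p - 1) := by
  have h1 := congrArg (fun m => m.factorization p) (RR_mul (z := z))
  simp only [Nat.factorization_mul RR_ne (rep_ne hz), Finsupp.add_apply] at h1
  rw [fact_PP hz, fact_RR hz hp, card_filter] at h1
  have h2 : ∑ i, (z i).natAbs.factorization p =
      ∑ i, (if (z i).natAbs.factorization p ≠ 0 then 1 else 0) +
        ∑ i, ((z i).natAbs.factorization p - 1) := by
    rw [← sum_add_distrib]
    refine sum_congr rfl fun i _ => ?_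
    split_ifs with h <;> omega
  omega

lemma fact_sh (hz : ∀ i, z i ≠ 0) {p : ℕ} (hp : p.Prime) :
    (sh z).factorization p =
      (univ.filter fun i => (z i).natAbs.factorization p ≠ 0).card - 1 := by
  have h1 := congrArg (fun m => m.factorization p) (rad_mul hz)
  simp only [Nat.factorization_mul (rad_ne _) (sh_ne hz), Finsupp.add_apply] at h1
  rw [fact_RR hz hp, rad_fact (PP_ne hz) hp] at h1
  have h2 : p ∣ PP z ↔ (univ.filter fun i => (z i).natAbs.factorization p ≠ 0).card ≠ 0 := by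
    rw [← Nat.pos_iff_ne_zero, card_pos]
    unfold PP
    rw [hp.prime.dvd_finsetProd_iff]
    constructor
    · rintro ⟨i, hi, h3⟩
      exact ⟨i, mem_filter.2 ⟨hi, (fact_ne_zero hz hp i).2 h3⟩⟩
    · rintro ⟨i, hi⟩
      rw [mem_filter] at hi
      exact ⟨i, hi.1, (fact_ne_zero hz hp i).1 hi.2⟩
  by_cases h3 : p ∣ PP z
  · rw [if_pos h3] at h1
    omega
  · rw [if_neg h3] at h1
    have h4 : (univ.filter fun i => (z i).natAbs.factorization p ≠ 0).card = 0 := by
      by_contra h5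
      exact h3 (h2.2 h5)
    omega

lemma typ_iff (hz : ∀ i, z i ≠ 0) {p : ℕ} (hp : p.Prime) (x : ℕ × ℕ) :
    Typ p x z ↔ (∃ i, ¬ (p : ℤ) ∣ z i) ∧ (rep z).factorization p = x.1 ∧
      (sh z).factorization p = x.2 := by
  have key : ∀ (i : Fin n) (a : ℕ), ((p : ℤ) ^ a ∣ z i ∧ ¬ (p : ℤ) ^ (a + 1) ∣ z i) ↔
      a = (z i).natAbs.factorization p := by
    intro i a
    have h0 : (z i).natAbs ≠ 0 := Int.natAbs_ne_zero.2 (hz i)
    have h1 : ∀ b : ℕ, (p : ℤ) ^ b ∣ z i ↔ b ≤ (z i).natAbs.factorization p := by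
      intro b
      rw [← hp.pow_dvd_iff_le_factorization h0, ← Int.natCast_dvd_natCast, Int.dvd_natAbs]
      push_cast
      rfl
    rw [h1, h1]
    omega
  have h0 : ∀ i, (z i).natAbs.factorization p = 0 ↔ ¬ (p : ℤ) ∣ z i := by
    intro i
    rw [Int.natCast_dvd, ← fact_ne_zero hz hp i, not_not]
  rw [fact_rep hz hp, fact_sh hz hp]
  constructor
  · rintro ⟨a, h1, ⟨i, h2⟩, h3, h4⟩
    have h5 : a = fun i => (z i).natAbs.factorization p := by
      funext i
      exact (key i (a i)).1 (h1 i)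
    subst h5
    exact ⟨⟨i, (h0 i).1 h2⟩, h3, h4⟩
  · rintro ⟨⟨i, h2⟩, h3, h4⟩
    exact ⟨fun i => (z i).natAbs.factorization p, fun i => (key i _).2 rfl, ⟨i, (h0 i).2 h2⟩,
      h3, h4⟩

lemma gcd_iff : univ.gcd z = 1 ↔ ∀ p : ℕ, p.Prime → ∃ i, ¬ (p : ℤ) ∣ z i := by
  constructor
  · intro h p hp
    by_contra hcon
    push Not at hcon
    have h1 : (p : ℤ) ∣ univ.gcd z := Finset.dvd_gcd fun i _ => hcon i
    rw [h] at h1
    exact hp.one_lt.ne' (by exact_mod_cast Int.eq_one_of_dvd_one (by positivity) h1)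
  · intro h
    have h1 : normalize (univ.gcd z) = univ.gcd z := Finset.normalize_gcd
    have h2 : (univ.gcd z).natAbs = 1 := by
      by_contra h3
      obtain ⟨p, hp, h4⟩ := Nat.exists_prime_and_dvd h3
      obtain ⟨i, hi⟩ := h p hp
      apply hi
      have h5 : (p : ℤ) ∣ univ.gcd z := Int.natCast_dvd.2 h4
      exact h5.trans (Finset.gcd_dvd (mem_univ i))
    rw [← h1, ← Int.abs_eq_normalize, Int.abs_eq_natAbs, h2, Nat.cast_one]

/-- the package REP -/
theorem rep_iff : S_REP := by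
  intro n hn z hz
  have fe : ∀ a b : ℕ, a ≠ 0 → b ≠ 0 → (∀ p : ℕ, p.Prime → a.factorization p = b.factorization p) →
      a = b := by
    intro a b ha hb h
    refine Nat.eq_of_factorization_eq ha hb fun p => ?_
    by_cases hp : p.Prime
    · exact h p hp
    · rw [Nat.factorization_eq_zero_of_not_prime _ hp, Nat.factorization_eq_zero_of_not_prime _ hp]
  refine ⟨fun w s hw hs => ?_, fun w hw => ?_, RR_mul, rad_mul hz,
    Nat.pos_of_ne_zero (rep_ne hz), Nat.pos_of_ne_zero (sh_ne hz)⟩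
  · rw [gcd_iff]
    constructor
    · intro h
      have h1 : ∀ p : ℕ, p.Prime → (∃ i, ¬ (p : ℤ) ∣ z i) ∧
          (rep z).factorization p = w.factorization p ∧
          (sh z).factorization p = s.factorization p := by
        intro p hp
        obtain ⟨x, hx, ht⟩ := h p hp
        unfold E2 at hx
        rw [mem_singleton] at hx
        subst hx
        exact (typ_iff hz hp _).1 ht
      exact ⟨fun p hp => (h1 p hp).1, fe _ _ (rep_ne hz) (by omega) fun p hp => (h1 p hp).2.1,
        fe _ _ (sh_ne hz) (by omega) fun p hp => (h1 p hp).2.2⟩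
    · rintro ⟨h1, h2, h3⟩ p hp
      refine ⟨_, mem_singleton_self _, (typ_iff hz hp _).2 ⟨h1 p hp, ?_, ?_⟩⟩
      · rw [h2]
      · rw [h3]
  · rw [gcd_iff]
    constructor
    · intro h
      have h1 : ∀ p : ℕ, p.Prime → (∃ i, ¬ (p : ℤ) ∣ z i) ∧
          (rep z).factorization p = w.factorization p := by
        intro p hp
        obtain ⟨x, hx, ht⟩ := h p hp
        unfold E1 at hx
        rw [mem_image] at hx
        obtain ⟨f, -, hf⟩ := hx
        subst hf
        have h2 := (typ_iff hz hp _).1 ht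
        exact ⟨h2.1, h2.2.1⟩
      exact ⟨fun p hp => (h1 p hp).1, fe _ _ (rep_ne hz) (by omega) fun p hp => (h1 p hp).2⟩
    · rintro ⟨h1, h2⟩ p hp
      refine ⟨(w.factorization p, (sh z).factorization p), ?_,
        (typ_iff hz hp _).2 ⟨h1 p hp, ?_, rfl⟩⟩
      · unfold E1
        rw [mem_image]
        refine ⟨_, mem_range.2 ?_, rfl⟩
        rw [fact_sh hz hp]
        have h3 := card_filter_le (univ : Finset (Fin n))
          (fun i => (z i).natAbs.factorization p ≠ 0)
        rw [card_univ, Fintype.card_fin] at h3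
        omega
      · rw [h2]

end Pool.Agent.P8H87.JN
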